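import Mathlib
import Pool.Agent.Q60.D3.Stm

/-!
# The generated classes are Hodge classes
-/

set_option linter.unusedSectionVars false
set_option linter.unusedVariables false

namespace Pool.Agent.Q128.D3

open Pool.Agent.H204R3.CM Pool.Agent.Q60.D3 Equiv Module

noncomputable section

variable {X Y : AV} {κ κ' : Type}

theorem hodge_unit [IsEmpty κ] (f : X.H [⋀^κ]→ₗ[ℚ] ℚ) : IsHodge X.per f := by
  refine ⟨MultilinearMap.constOfIsEmpty ℝ _ ((f (fun k => isEmptyElim k) : ℚ) : ℝ), fun v => ?_,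
    fun z hz u => rfl⟩
  have h : v = fun k => isEmptyElim k := funext fun k => isEmptyElim k
  rw [h]
  rfl

theorem hodge_zero (X : AV) (κ : Type) : IsHodge X.per (0 : X.H [⋀^κ]→ₗ[ℚ] ℚ) :=
  ⟨0, fun v => by simp, fun z hz u => rfl⟩

theorem hodge_add {f g : X.H [⋀^κ]→ₗ[ℚ] ℚ} (hf : IsHodge X.per f) (hg : IsHodge X.per g) :
    IsHodge X.per (f + g) := by
  obtain ⟨ψ, h1, h2⟩ := hf
  obtain ⟨ψ', h1', h2'⟩ := hg
  refine ⟨ψ + ψ', fun v => ?_, fun z hz u => ?_⟩
  · rw [add_apply, h1, h1', AlternatingMap.add_apply]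
    push_cast
    rfl
  · rw [add_apply, add_apply, h2 z hz, h2' z hz]

theorem hodge_smul (a : ℚ) {f : X.H [⋀^κ]→ₗ[ℚ] ℚ} (hf : IsHodge X.per f) :
    IsHodge X.per (a • f) := by
  obtain ⟨ψ, h1, h2⟩ := hf
  refine ⟨(a : ℝ) • ψ, fun v => ?_, fun z hz u => ?_⟩
  · rw [smul_apply, h1, AlternatingMap.smul_apply, smul_eq_mul, smul_eq_mul]
    push_cast
    rfl
  · rw [smul_apply, smul_apply, h2 z hz]

theorem hodge_reindex (e : κ ≃ κ') {f : X.H [⋀^κ]→ₗ[ℚ] ℚ} (hf : IsHodge X.per f) :
    IsHodge X.per (f.domDomCongr e) := by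
  obtain ⟨ψ, h1, h2⟩ := hf
  exact ⟨ψ.domDomCongr e, fun v => h1 (fun k => v (e k)), fun z hz u => h2 z hz (fun k => u (e k))⟩

theorem hodge_cup [Fintype κ] [DecidableEq κ] [Fintype κ'] [DecidableEq κ']
    {f : X.H [⋀^κ]→ₗ[ℚ] ℚ} {g : X.H [⋀^κ']→ₗ[ℚ] ℚ} (hf : IsHodge X.per f)
    (hg : IsHodge X.per g) (h : X.H [⋀^κ ⊕ κ']→ₗ[ℚ] ℚ)
    (hh : ∀ v : κ ⊕ κ' → X.H, h v = ∑ σ : Equiv.Perm (κ ⊕ κ'), ((Equiv.Perm.sign σ : ℤ) : ℚ) *
        (f (fun k => v (σ (Sum.inl k))) * g (fun k => v (σ (Sum.inr k))))) : IsHodge X.per h := by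
  obtain ⟨ψ, h1, h2⟩ := hf
  obtain ⟨ψ', h1', h2'⟩ := hg
  have key : ∀ u : κ ⊕ κ' → X.T, (MultilinearMap.alternatization
      ((LinearMap.mul' ℝ ℝ).compMultilinearMap (ψ.domCoprod ψ'))) u =
        ∑ σ : Equiv.Perm (κ ⊕ κ'), ((Equiv.Perm.sign σ : ℤ) : ℝ) *
          (ψ (fun k => u (σ (Sum.inl k))) * ψ' (fun k => u (σ (Sum.inr k)))) := by
    intro u
    rw [MultilinearMap.alternatization_apply]
    refine Finset.sum_congr rfl fun σ _ => ?_
    rw [Units.smul_def, zsmul_eq_mul]
    rfl
  refine ⟨(MultilinearMap.alternatization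
      ((LinearMap.mul' ℝ ℝ).compMultilinearMap (ψ.domCoprod ψ'))).toMultilinearMap,
    fun v => ?_, fun z hz u => ?_⟩
  · refine (key _).trans ?_
    rw [hh v, Rat.cast_sum]
    refine Finset.sum_congr rfl fun σ _ => ?_
    rw [h1 (fun k => v (σ (Sum.inl k))), h1' (fun k => v (σ (Sum.inr k)))]
    push_cast
    rfl
  · refine (key _).trans (Eq.trans ?_ (key _).symm)
    refine Finset.sum_congr rfl fun σ _ => ?_
    rw [h2 z hz (fun k => u (σ (Sum.inl k))), h2' z hz (fun k => u (σ (Sum.inr k)))]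

theorem hodge_pull {h : X.H →ₗ[ℚ] Y.H} (hh : IsHom X Y h) {f : Y.H [⋀^κ]→ₗ[ℚ] ℚ}
    (hf : IsHodge Y.per f) : IsHodge X.per (f.compLinearMap h) := by
  obtain ⟨ψ, h1, h2⟩ := hf
  obtain ⟨C, hC⟩ := hh
  refine ⟨ψ.compLinearMap (fun _ => C.restrictScalars ℝ), fun v => ?_, fun z hz u => ?_⟩
  · change ψ (fun l => C (X.per (v l))) = _
    simp only [hC]
    exact h1 (fun l => h (v l))
  · change ψ (fun l => C (z • u l)) = ψ (fun l => C (u l))
    simp only [map_smul]
    exact h2 z hz (fun l => C (u l))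

/-- The determinant over the reals of the multiplication by a complex number of absolute value
one. -/
theorem det_unit {V : Type*} [AddCommGroup V] [Module ℂ V] [FiniteDimensional ℂ V] {z : ℂ}
    (hz : ‖z‖ = 1) :
    LinearMap.det ((z • (LinearMap.id : V →ₗ[ℂ] V)).restrictScalars ℝ) = 1 := by
  rw [LinearMap.det_restrictScalars, LinearMap.det_smul, LinearMap.det_id, mul_one, map_pow,
    Algebra.norm_complex_apply, Complex.normSq_eq_norm_sq, hz]
  norm_num

/-- Alternating forms in at least as many variables as the dimension are invariant under complex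
numbers of absolute value one. -/
theorem alt_unit {V : Type*} [AddCommGroup V] [Module ℂ V] [FiniteDimensional ℂ V] [Fintype κ']
    (hcard : finrank ℝ V ≤ Fintype.card κ') (A : V [⋀^κ']→ₗ[ℝ] ℝ) {z : ℂ} (hz : ‖z‖ = 1)
    (y : κ' → V) : A (fun k => z • y k) = A y := by
  classical
  have hfd : FiniteDimensional ℝ V := FiniteDimensional.complexToReal V
  rcases hcard.lt_or_eq with h | h
  · have h1 : ∀ y : κ' → V, A y = 0 := by
      intro y
      refine A.map_linearDependent y fun hli => ?_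
      have h2 := hli.fintype_card_le_finrank
      omega
    rw [h1, h1]
  · let e : Basis κ' ℝ V := (Module.finBasis ℝ V).reindex
      (Fintype.equivOfCardEq (by rw [Fintype.card_fin, h]))
    rw [A.eq_smul_basis_det e, AlternatingMap.smul_apply, AlternatingMap.smul_apply]
    congr 1
    have h1 : (fun k => z • y k) = ((z • (LinearMap.id : V →ₗ[ℂ] V)).restrictScalars ℝ) ∘ y := rfl
    rw [h1, Basis.det_comp, det_unit hz, one_mul]

/-- The images of a rational basis span the tangent space over the reals. -/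
theorem span_basis (b : Basis κ' ℚ Y.H) :
    Submodule.span ℝ (Set.range fun k => Y.per (b k)) = ⊤ := by
  rw [eq_top_iff, ← Y.span, Submodule.span_le]
  rintro _ ⟨w, rfl⟩
  have h1 : w ∈ Submodule.span ℚ (Set.range b) := by
    rw [b.span_eq]
    trivial
  induction h1 using Submodule.span_induction with
  | mem w hw =>
    obtain ⟨k, rfl⟩ := hw
    exact Submodule.subset_span ⟨k, rfl⟩
  | zero =>
    rw [map_zero]
    exact Submodule.zero_mem _
  | add w w' _ _ h h' =>
    rw [map_add]
    exact Submodule.add_mem _ h h'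
  | smul a w _ h =>
    have h2 : Y.per (a • w) = (a : ℝ) • Y.per w := map_ratCast_smul Y.per ℚ ℝ a w
    rw [h2]
    exact Submodule.smul_mem _ _ h

/-- An alternating real form extending a Hodge class. -/
theorem exists_alt [Fintype κ] [DecidableEq κ] {f : X.H [⋀^κ]→ₗ[ℚ] ℚ} (hf : IsHodge X.per f) :
    ∃ ψ : X.T [⋀^κ]→ₗ[ℝ] ℝ, (∀ v : κ → X.H, ψ (fun l => X.per (v l)) = f v) ∧
      ∀ z : ℂ, ‖z‖ = 1 → ∀ u : κ → X.T, ψ (fun l => z • u l) = ψ u := by
  obtain ⟨ψ, h1, h2⟩ := hf
  refine ⟨((Fintype.card (Perm κ) : ℝ))⁻¹ • MultilinearMap.alternatization ψ, fun v => ?_,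
    fun z hz u => ?_⟩
  · rw [AlternatingMap.smul_apply, MultilinearMap.alternatization_apply]
    have h3 : ∀ σ : Perm κ, Perm.sign σ • (ψ.domDomCongr σ) (fun l => X.per (v l)) = (f v : ℝ) := by
      intro σ
      have h4 : (ψ.domDomCongr σ) (fun l => X.per (v l)) = f (fun l => v (σ l)) :=
        h1 (fun l => v (σ l))
      have h5 : f (fun l => v (σ l)) = Perm.sign σ • f v := f.map_perm v σ
      rw [h4, h5, Units.smul_def, Units.smul_def, zsmul_eq_mul, zsmul_eq_mul, Rat.cast_mul,
        Rat.cast_intCast, ← mul_assoc, ← Int.cast_mul, ← Units.val_mul, Int.units_mul_self,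
        Units.val_one, Int.cast_one, one_mul]
    rw [Finset.sum_congr rfl (fun σ _ => h3 σ), Finset.sum_const, Finset.card_univ, nsmul_eq_mul,
      smul_eq_mul, ← mul_assoc, inv_mul_cancel₀ (Nat.cast_ne_zero.2 Fintype.card_ne_zero), one_mul]
  · rw [AlternatingMap.smul_apply, AlternatingMap.smul_apply, MultilinearMap.alternatization_apply,
      MultilinearMap.alternatization_apply]
    congr 1
    refine Finset.sum_congr rfl fun σ _ => ?_
    congr 1
    exact h2 z hz (fun l => u (σ l))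

/-- Fix the second part of the variables. -/
def fixR (ψ : (X.prod Y).T [⋀^κ ⊕ κ']→ₗ[ℝ] ℝ) (y : κ' → (X.prod Y).T) :
    MultilinearMap ℝ (fun _ : κ => X.T) ℝ where
  toFun u := ψ (Sum.elim (fun k => (((u k, 0) : X.T × Y.T) : (X.prod Y).T)) y)
  map_update_add' := by
    classical
    intro hd u k a b
    have h1 : ∀ z : X.T, (Sum.elim (fun k' => (Function.update u k z k', (0 : Y.T))) y :
        κ ⊕ κ' → (X.prod Y).T) =
        Function.update (Sum.elim (fun k' => (u k', (0 : Y.T))) y : κ ⊕ κ' → (X.prod Y).T)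
          (Sum.inl k) (z, (0 : Y.T)) := by
      intro z
      funext s
      rcases s with s | s
      · by_cases h : s = k
        · subst h; simp
        · simp [h]
      · simp
    have h2 : ((a + b, 0) : X.T × Y.T) = ((a, 0) : X.T × Y.T) + (b, 0) := by simp
    rw [h1, h1, h1, h2]
    exact ψ.map_update_add _ _ _ _
  map_update_smul' := by
    classical
    intro hd u k c x
    have h1 : ∀ z : X.T, (Sum.elim (fun k' => (Function.update u k z k', (0 : Y.T))) y :
        κ ⊕ κ' → (X.prod Y).T) =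
        Function.update (Sum.elim (fun k' => (u k', (0 : Y.T))) y : κ ⊕ κ' → (X.prod Y).T)
          (Sum.inl k) (z, (0 : Y.T)) := by
      intro z
      funext s
      rcases s with s | s
      · by_cases h : s = k
        · subst h; simp
        · simp [h]
      · simp
    have h2 : ((c • x, 0) : X.T × Y.T) = c • ((x, 0) : X.T × Y.T) := by simp
    rw [h1, h1, h2]
    exact ψ.map_update_smul _ _ _ _

/-- Fix the first part of the variables. -/
def fixL (ψ : (X.prod Y).T [⋀^κ ⊕ κ']→ₗ[ℝ] ℝ) (u : κ → (X.prod Y).T) :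
    Y.T [⋀^κ']→ₗ[ℝ] ℝ where
  toFun y := ψ (Sum.elim u (fun k => (((0, y k) : X.T × Y.T) : (X.prod Y).T)))
  map_update_add' := by
    classical
    intro hd y k a b
    have h1 : ∀ z : Y.T, (Sum.elim u (fun k' => ((0 : X.T), Function.update y k z k')) :
        κ ⊕ κ' → (X.prod Y).T) =
        Function.update (Sum.elim u (fun k' => ((0 : X.T), y k')) : κ ⊕ κ' → (X.prod Y).T)
          (Sum.inr k) ((0 : X.T), z) := by
      intro z
      funext s
      rcases s with s | s
      · simp
      · by_cases h : s = k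
        · subst h; simp
        · simp [h]
    have h2 : ((0, a + b) : X.T × Y.T) = ((0, a) : X.T × Y.T) + (0, b) := by simp
    rw [h1, h1, h1, h2]
    exact ψ.map_update_add _ _ _ _
  map_update_smul' := by
    classical
    intro hd y k c x
    have h1 : ∀ z : Y.T, (Sum.elim u (fun k' => ((0 : X.T), Function.update y k z k')) :
        κ ⊕ κ' → (X.prod Y).T) =
        Function.update (Sum.elim u (fun k' => ((0 : X.T), y k')) : κ ⊕ κ' → (X.prod Y).T)
          (Sum.inr k) ((0 : X.T), z) := by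
      intro z
      funext s
      rcases s with s | s
      · simp
      · by_cases h : s = k
        · subst h; simp
        · simp [h]
    have h2 : ((0, c • x) : X.T × Y.T) = c • ((0, x) : X.T × Y.T) := by simp
    rw [h1, h1, h2]
    exact ψ.map_update_smul _ _ _ _
  map_eq_zero_of_eq' y i k hy hik := by
    refine ψ.map_eq_zero_of_eq _ (i := Sum.inr i) (j := Sum.inr k) ?_ (by simpa using hik)
    simp [hy]

theorem hodge_push [Finite κ] (b : Basis κ' ℚ Y.H) {f : (X.prod Y).H [⋀^κ ⊕ κ']→ₗ[ℚ] ℚ}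
    (hf : IsHodge (X.prod Y).per f) (g : X.H [⋀^κ]→ₗ[ℚ] ℚ)
    (hg : ∀ v : κ → X.H,
      g v = f (Sum.elim (fun k => ((v k, 0) : X.H × Y.H)) (fun k => ((0, b k) : X.H × Y.H)))) :
    IsHodge X.per g := by
  classical
  have := Fintype.ofFinite κ
  have : Finite κ' := Module.Finite.finite_basis b
  have := Fintype.ofFinite κ'
  obtain ⟨ψ, h1, h2⟩ := exists_alt hf
  refine ⟨fixR ψ (fun k => (((0, Y.per (b k)) : X.T × Y.T) : (X.prod Y).T)), fun v => ?_,
    fun z hz u => ?_⟩
  · have h3 : (Sum.elim (fun k => (((X.per (v k), 0) : X.T × Y.T) : (X.prod Y).T))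
        (fun k => (((0, Y.per (b k)) : X.T × Y.T) : (X.prod Y).T)) :
        κ ⊕ κ' → (X.prod Y).T) = fun l => (X.prod Y).per
          (Sum.elim (fun k => (((v k, 0) : X.H × Y.H) : (X.prod Y).H))
            (fun k => (((0, b k) : X.H × Y.H) : (X.prod Y).H)) l) := by
      funext s
      rcases s with k | k
      · change ((X.per (v k), 0) : X.T × Y.T) = (X.per.prodMap Y.per) ((v k, 0) : X.H × Y.H)
        exact Prod.ext rfl (map_zero Y.per).symm
      · change ((0, Y.per (b k)) : X.T × Y.T) = (X.per.prodMap Y.per) ((0, b k) : X.H × Y.H)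
        exact Prod.ext (map_zero X.per).symm rfl
    change ψ _ = _
    rw [h3, h1, hg]
  · have hfin : finrank ℝ Y.T ≤ Fintype.card κ' := by
      have h4 := finrank_range_le_card (R := ℝ) (fun k => Y.per (b k))
      rw [Set.finrank, span_basis b, finrank_top] at h4
      exact h4
    have hz' : ‖z⁻¹‖ = 1 := by rw [norm_inv, hz, inv_one]
    have hz0 : z ≠ 0 := by
      intro h
      rw [h, norm_zero] at hz
      exact zero_ne_one hz
    change ψ (Sum.elim (fun k => (((z • u k, 0) : X.T × Y.T) : (X.prod Y).T))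
        (fun k => (((0, Y.per (b k)) : X.T × Y.T) : (X.prod Y).T))) =
      ψ (Sum.elim (fun k => (((u k, 0) : X.T × Y.T) : (X.prod Y).T))
        (fun k => (((0, Y.per (b k)) : X.T × Y.T) : (X.prod Y).T)))
    have h5 : (Sum.elim (fun k => (((z • u k, 0) : X.T × Y.T) : (X.prod Y).T))
        (fun k => (((0, Y.per (b k)) : X.T × Y.T) : (X.prod Y).T)) :
        κ ⊕ κ' → (X.prod Y).T) = fun l => z •
          ((Sum.elim (fun k => (((u k, 0) : X.T × Y.T) : (X.prod Y).T))
            (fun k => (((0, z⁻¹ • Y.per (b k)) : X.T × Y.T) : (X.prod Y).T)) :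
            κ ⊕ κ' → (X.prod Y).T) l) := by
      funext s
      rcases s with k | k
      · change ((z • u k, 0) : X.T × Y.T) = z • ((u k, 0) : X.T × Y.T)
        rw [Prod.smul_mk, smul_zero]
      · change ((0, Y.per (b k)) : X.T × Y.T) = z • ((0, z⁻¹ • Y.per (b k)) : X.T × Y.T)
        rw [Prod.smul_mk, smul_zero, smul_smul, mul_inv_cancel₀ hz0, one_smul]
    rw [h5, h2 z hz]
    exact alt_unit hfin (fixL ψ (fun k => (((u k, 0) : X.T × Y.T) : (X.prod Y).T))) hz'
      (fun k => Y.per (b k))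

/-- The generated classes are Hodge classes. -/
theorem conv : S_conv := by
  intro X κ f h
  induction h with
  | unit f => exact fun _ => hodge_unit f
  | divisor hκ f hf => exact fun _ => hf
  | weil f hf => exact fun _ => hf.2.1
  | zero X κ => exact fun _ => hodge_zero X κ
  | add f g _ _ ihf ihg => exact fun h => hodge_add (ihf h) (ihg h)
  | smul a f _ ih => exact fun h => hodge_smul a (ih h)
  | reindex e f _ ih =>
    intro h
    exact hodge_reindex e (ih (Finite.of_equiv _ e.symm))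
  | cup f g _ _ h hh ihf ihg => exact fun _ => hodge_cup (ihf inferInstance) (ihg inferInstance) h hh
  | pull h hh f _ ih => exact fun hfin => hodge_pull hh (ih hfin)
  | push b f _ g hg ih =>
    intro h
    have := Module.Finite.finite_basis b
    exact hodge_push b (ih inferInstance) g hg

end

end Pool.Agent.Q128.D3
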